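import Pool.Agent.H.MP_16be1b_co.Poly

set_option autoImplicit false

namespace Pool.Agent.Results.MP_16be1b_co.WSymmetry

open Pool.Agent.H.MP_16be1b_co

/-- For every `n ≥ 1` the monotone triangle polynomial `α(2n+1; ·)` exists and is unique, and
`W_{n,i} = W_{n,3n+3-i}` for every integer `i`. -/
theorem result (n : ℕ) (_hn : 1 ≤ n) :
    ∃ P : MvPolynomial (Fin (2 * n + 1)) ℚ,
      (∀ Q : MvPolynomial (Fin (2 * n + 1)) ℚ,
        IsMonotoneTrianglePolynomial (2 * n + 1) Q ↔ Q = P) ∧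
      ∀ i : ℤ, W n P i = W n P (3 * n + 3 - i) := by
  obtain ⟨P, hP⟩ := isPolyFn_alpha (2 * n + 1)
  refine ⟨P, fun Q => ⟨fun hQ => ?_, fun hQ => ?_⟩, fun i => ?_⟩
  · have : Q - P = 0 := by
      apply eq_zero_of_strictMono
      intro k hk
      rw [map_sub, hP, hQ k hk, ← count_eq_alpha _ k hk]
      simp
    exact sub_eq_zero.mp this
  · subst hQ
    intro k hk
    rw [hP, ← count_eq_alpha _ k hk]
    simp
  · unfold W
    rw [hP, hP, alpha_symm]

end Pool.Agent.Results.MP_16be1b_co.WSymmetry
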